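import Pool.Agent.MP_670f9a_nt.H13.Spec2

/-! The covolume of the lattice of relations is bounded by the height. -/

namespace Pool.Agent.MP_670f9a_nt.H9

open Finset Module Matrix Pool.Agent.MP_670f9a_nt.NP

/-- complementary integer matrices have the same Gram determinant -/
theorem dual_gram {κ ι n : Type} [Fintype κ] [DecidableEq κ] [Fintype ι] [DecidableEq ι]
    [Fintype n] [DecidableEq n] (A : Matrix κ ι ℤ) (A' : Matrix n ι ℤ) (P : Matrix ι κ ℤ)
    (C : Matrix ι n ℤ) (h1 : P * A + C * A' = 1) (h2 : A * C = 0) (h3 : A' * C = 1)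
    (hG : (A * Aᵀ).det ≠ 0) :
    Fintype.card ι = Fintype.card κ + Fintype.card n ∧ |(Cᵀ * C).det| = |(A * Aᵀ).det| := by
  have canc : ∀ {m : Type} [Fintype m] (X : Matrix m κ ℤ), X * A = 0 → X = 0 := by
    intro m _ X hX
    have h : X * (A * Aᵀ) * (A * Aᵀ).adjugate = 0 := by
      rw [← Matrix.mul_assoc, hX, Matrix.zero_mul, Matrix.zero_mul]
    rw [Matrix.mul_assoc, mul_adjugate, Matrix.mul_smul, Matrix.mul_one] at h
    exact (smul_eq_zero.mp h).resolve_left hG
  have hAP : A * P = 1 := by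
    have h : (A * P - 1) * A = 0 := by
      have e : A * (P * A + C * A') = A := by rw [h1, Matrix.mul_one]
      rw [Matrix.mul_add, ← Matrix.mul_assoc, ← Matrix.mul_assoc, h2, Matrix.zero_mul,
        add_zero] at e
      rw [Matrix.sub_mul, e, Matrix.one_mul, sub_self]
    exact sub_eq_zero.mp (canc _ h)
  have hA'P : A' * P = 0 := by
    refine canc _ ?_
    have e : A' * (P * A + C * A') = A' := by rw [h1, Matrix.mul_one]
    rw [Matrix.mul_add, ← Matrix.mul_assoc, ← Matrix.mul_assoc, h3, Matrix.one_mul] at e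
    exact add_eq_right.mp e
  have hVU : fromCols P C * fromRows A A' = 1 := by rw [fromCols_mul_fromRows, h1]
  have hUV : fromRows A A' * fromCols P C = 1 := by
    rw [fromRows_mul_fromCols, hAP, h2, hA'P, h3, fromBlocks_one]
  refine ⟨?_, ?_⟩
  · have h := trace_mul_comm (fromCols P C) (fromRows A A')
    rw [hVU, hUV, trace_one, trace_one, Fintype.card_sum] at h
    exact_mod_cast h
  · set U := fromRows A A' with hU
    set V := fromCols P C with hV
    set W := fromCols Aᵀ C with hW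
    have e1 : (U * W).det = (A * Aᵀ).det := by
      rw [hU, hW, fromRows_mul_fromCols, h2, h3, det_fromBlocks_zero₁₂, det_one, mul_one]
    have e2 : (Wᵀ * W).det = (A * Aᵀ).det * (Cᵀ * C).det := by
      rw [hW, transpose_fromCols, transpose_transpose, fromRows_mul_fromCols, h2,
        det_fromBlocks_zero₁₂]
    have e3 : Wᵀ * W = (U * W)ᵀ * (Vᵀ * V) * (U * W) := by
      have : V * (U * W) = W := by rw [← Matrix.mul_assoc, hVU, Matrix.one_mul]
      rw [← Matrix.mul_assoc (U * W)ᵀ, ← transpose_mul, Matrix.mul_assoc, this]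
    have e4 : (Vᵀ * V) * (U * Uᵀ) = 1 := by
      rw [Matrix.mul_assoc, ← Matrix.mul_assoc V, hVU, Matrix.one_mul, ← transpose_mul, hUV,
        transpose_one]
    have e5 : |(Vᵀ * V).det| = 1 := by
      have h := congrArg det e4
      rw [det_mul, det_one] at h
      exact Int.isUnit_iff_abs_eq.mp (IsUnit.of_mul_eq_one _ h)
    rw [e3, det_mul, det_mul, det_transpose, e1, mul_assoc] at e2
    rw [← mul_left_cancel₀ hG e2, abs_mul, e5, one_mul]

/-- independent elements stay independent under a suitable tuple of embeddings -/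
theorem dual_tuple {K n : Type} [Field K] [NumberField K] [Fintype n] [DecidableEq n] (m : n → K)
    (hm : LinearIndependent ℚ m) :
    ∃ s : n → (K →ₐ[ℚ] ℂ), (Matrix.of fun j l => s j (m l)).det ≠ 0 := by
  classical
  obtain ⟨g, hg⟩ := LinearMap.exists_leftInverse_of_injective (Fintype.linearCombination ℚ m)
    (LinearMap.ker_eq_bot.mpr (linearIndependent_iff_injective_fintypeLinearCombination.mp hm))
  have hd : ∀ k : n, ∃ y : K, ∀ l, ∑ σ : K →ₐ[ℚ] ℂ, σ y * σ (m l) = (1 : Matrix n n ℂ) k l := by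
    intro k
    refine ⟨((Algebra.traceForm ℚ K).toDual (traceForm_nondegenerate ℚ K)).symm
      ((LinearMap.proj k).comp g), fun l => ?_⟩
    have h1 := LinearMap.BilinForm.apply_toDual_symm_apply
      (hB := traceForm_nondegenerate ℚ K) ((LinearMap.proj k).comp g) (m l)
    rw [Algebra.traceForm_apply] at h1
    have h2 := congrArg (algebraMap ℚ ℂ) h1
    rw [trace_eq_sum_embeddings] at h2
    simp only [map_mul] at h2
    rw [h2]
    have h3 : g (m l) = Pi.single l 1 := by
      have := LinearMap.congr_fun hg (Pi.single l 1)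
      simpa using this
    simp [h3, Matrix.one_apply, Pi.single_apply]
  choose y hy using hd
  by_contra h0
  have h0' : ∀ s : n → (K →ₐ[ℚ] ℂ), (Matrix.of fun j l => s j (m l)).det = 0 := fun s =>
    not_not.mp fun h => h0 ⟨s, h⟩
  have e : (1 : Matrix n n ℂ) = fun k => ∑ σ : K →ₐ[ℚ] ℂ, σ (y k) • fun l => σ (m l) := by
    ext k l
    rw [← hy k l, Finset.sum_apply]
    rfl
  have h := (detRowAlternating (n := n) (R := ℂ)).toMultilinearMap.map_sum
    (fun k (σ : K →ₐ[ℚ] ℂ) => σ (y k) • fun l => σ (m l))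
  rw [← e, Finset.sum_eq_zero] at h
  · have h' : (1 : Matrix n n ℂ).det = 0 := h
    rw [det_one] at h'
    exact one_ne_zero h'
  · intro s _
    rw [MultilinearMap.map_smul_univ]
    have : (detRowAlternating (n := n) (R := ℂ)).toMultilinearMap
      (fun k l => s k (m l)) = 0 := h0' s
    rw [this, smul_zero]

/-- every embedding has the same number of extensions -/
theorem dual_ext {K L : Type} [Field K] [NumberField K] [Field L] [NumberField L] (g : K →+* L)
    (f : (K →+* ℂ) → ℝ) :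
    (∏ τ : L →+* ℂ, f (τ.comp g)) ^ finrank ℚ K = (∏ σ : K →+* ℂ, f σ) ^ finrank ℚ L := by
  classical
  let : Algebra K L := g.toAlgebra
  have hfin : FiniteDimensional K L := FiniteDimensional.right ℚ K L
  have hc : ∀ σ : K →+* ℂ,
      (univ.filter fun τ : L →+* ℂ => τ.comp g = σ).card = finrank K L := by
    intro σ
    let : Algebra K ℂ := σ.toAlgebra
    rw [← AlgHom.card K L ℂ, ← Fintype.card_subtype]
    exact Fintype.card_congr
      ⟨fun τ => ⟨τ.1, fun x => RingHom.congr_fun τ.2 x⟩,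
        fun φ => ⟨φ.toRingHom, RingHom.ext fun x => φ.commutes x⟩, fun _ => rfl, fun _ => rfl⟩
  rw [← Finset.prod_fiberwise univ (fun τ : L →+* ℂ => τ.comp g),
    ← finrank_mul_finrank ℚ K L, mul_comm, pow_mul, ← Finset.prod_pow univ (finrank K L)]
  congr 1
  refine Finset.prod_congr rfl fun σ _ => ?_
  rw [← hc σ, ← Finset.prod_const]
  exact Finset.prod_congr rfl fun τ hτ => by rw [(Finset.mem_filter.mp hτ).2]

/-- the norm of a nonzero algebraic integer -/
theorem dual_norm {L : Type} [Field L] [NumberField L] (μ : L) (h0 : μ ≠ 0)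
    (hi : IsIntegral ℤ μ) : 1 ≤ ∏ τ : L →+* ℂ, ‖τ μ‖ := by
  obtain ⟨z, hz⟩ := IsIntegrallyClosed.isIntegral_iff.1 (Algebra.isIntegral_norm ℚ hi)
  have h1 := Algebra.norm_eq_prod_embeddings ℚ ℂ μ
  have hz0 : z ≠ 0 := by
    rintro rfl
    rw [map_zero] at hz
    exact h0 (Algebra.norm_eq_zero_iff.mp hz.symm)
  have h2 : ∏ τ : L →+* ℂ, τ μ = (z : ℂ) := by
    rw [Fintype.prod_equiv (RingHom.equivRatAlgHom L ℂ) (fun τ : L →+* ℂ => τ μ)
      (fun σ : L →ₐ[ℚ] ℂ => σ μ) fun _ => rfl, ← h1, ← hz]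
    simp
  rw [← norm_prod, h2, Complex.norm_intCast]
  exact_mod_cast Int.one_le_abs hz0

theorem sDual (h : SHad) : SDual := by
  intro K _ _ κ ι _ _ _ w A hw hA hspan
  classical
  have hS0 : ∀ σ : K →+* ℂ, 0 ≤ ∑ i, ‖σ (w i)‖ ^ 2 := fun σ =>
    Finset.sum_nonneg fun i _ => sq_nonneg _
  have hP0 : 0 ≤ ∏ σ : K →+* ℂ, ∑ i, ‖σ (w i)‖ ^ 2 := Finset.prod_nonneg fun σ _ => hS0 σ
  by_cases hG : (A * Aᵀ).det = 0
  · rw [hG, Int.cast_zero, zero_pow finrank_pos.ne']
    exact pow_nonneg hP0 _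
  set φ : (ι → ℤ) →ₗ[ℤ] K := Fintype.linearCombination ℤ w with hφ
  have hφa : ∀ g, φ g = ∑ i, (g i : K) * w i := fun g => by
    simp [hφ, Fintype.linearCombination_apply]
  have hfree : Module.Free ℤ (LinearMap.range φ) := Module.free_of_finite_type_torsion_free'
  set ρ := finrank ℤ (LinearMap.range φ) with hρ
  let b : Basis (Fin ρ) ℤ (LinearMap.range φ) := Module.finBasis ℤ _
  let m : Fin ρ → K := fun l => b l
  have hmZ : LinearIndependent ℤ m :=
    b.linearIndependent.map' (LinearMap.range φ).subtype (Submodule.ker_subtype _)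
  have hmQ : LinearIndependent ℚ m := (LinearIndependent.iff_fractionRing ℤ ℚ).mp hmZ
  have hlift : ∀ l, ∃ a : ι → ℤ, ∑ i, (a i : K) * w i = m l := fun l => by
    obtain ⟨a, ha⟩ := (b l).2
    exact ⟨a, by rw [← hφa]; exact ha⟩
  choose a ha using hlift
  have hco : ∀ i, ∃ c : Fin ρ → ℤ, w i = ∑ l, (c l : K) * m l := fun i => by
    have hi : w i ∈ LinearMap.range φ := ⟨Pi.single i 1, by simp [hφ]⟩
    refine ⟨fun l => b.repr ⟨w i, hi⟩ l, ?_⟩
    have h1 := congrArg Subtype.val (b.sum_repr ⟨w i, hi⟩)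
    simp only [AddSubmonoidClass.coe_finsetSum, SetLike.val_smul, zsmul_eq_mul] at h1
    exact h1.symm
  choose c hc using hco
  let C : Matrix ι (Fin ρ) ℤ := Matrix.of c
  let A' : Matrix (Fin ρ) ι ℤ := Matrix.of a
  have hcomb : ∀ g : ι → ℤ, ∑ i, (g i : K) * w i = ∑ l, ((∑ i, g i * c i l : ℤ) : K) * m l := by
    intro g
    simp only [hc, Finset.mul_sum, Int.cast_sum, Int.cast_mul, Finset.sum_mul, mul_assoc]
    exact Finset.sum_comm
  have huniq : ∀ x y : Fin ρ → ℤ, ∑ l, (x l : K) * m l = ∑ l, (y l : K) * m l → x = y := by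
    intro x y hxy
    refine linearIndependent_iff_injective_fintypeLinearCombination.mp hmZ ?_
    simpa [Fintype.linearCombination_apply] using hxy
  have h2 : A * C = 0 := by
    ext k l
    have := huniq (fun l => ∑ i, A k i * c i l) 0 (by rw [← hcomb, hA k]; simp)
    exact congrFun this l
  have h3 : A' * C = 1 := by
    ext k l
    have := huniq (fun l => ∑ i, a k i * c i l) (Pi.single k 1)
      (by rw [← hcomb, ha k]; simp [Pi.single_apply])
    rw [Matrix.one_apply, show (A' * C) k l = _ from congrFun this l, Pi.single_apply]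
    simp only [eq_comm]
  have hP : ∀ i, ∃ p : κ → ℤ, ∀ j, (1 - C * A' : Matrix ι ι ℤ) i j = ∑ k, p k * A k j := fun i => by
    refine hspan _ ?_
    have e : ∑ j, (((C * A') i j : ℤ) : K) * w j = w i := by
      rw [hc i]
      simp only [Matrix.mul_apply, C, A', of_apply, Int.cast_sum, Int.cast_mul, Finset.sum_mul,
        ← ha, Finset.mul_sum, mul_assoc]
      exact Finset.sum_comm
    simp only [Matrix.sub_apply, Int.cast_sub, sub_mul, Finset.sum_sub_distrib, e]
    simp [Matrix.one_apply]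
  choose p hp using hP
  have h1 : Matrix.of p * A + C * A' = 1 := by
    rw [← eq_sub_iff_add_eq]
    ext i j
    rw [hp i j]
    rfl
  obtain ⟨hcard, hdet⟩ := dual_gram A A' (Matrix.of p) C h1 h2 h3 hG
  rw [hcard, Nat.add_sub_cancel_left, Fintype.card_fin]
  obtain ⟨s, hs⟩ := dual_tuple m hmQ
  let L := IntermediateField.normalClosure ℚ K ℂ
  have hL : NumberField L := {}
  let g : Fin ρ → (K →+* L) := fun j => ((normalClosure.algHomEquiv ℚ K ℂ).symm (s j)).toRingHom
  let N : Matrix (Fin ρ) (Fin ρ) L := Matrix.of fun j l => g j (m l)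
  have hN0 : N.det ≠ 0 := by
    intro h0
    have e := (algebraMap L ℂ).map_det N
    rw [h0, map_zero] at e
    exact hs e.symm
  have hmi : ∀ l, IsIntegral ℤ (m l) := fun l => by
    rw [← ha l]
    exact IsIntegral.sum _ fun i _ => (isIntegral_intCast _).mul (hw i)
  have hNi : IsIntegral ℤ N.det := IsIntegral.det fun j l => (hmi l).map (g j).toIntAlgHom
  have hτ : ∀ τ : L →+* ℂ, |(((A * Aᵀ).det : ℤ) : ℝ)| * ‖τ N.det‖ ^ 2 ≤
      ∏ j, ∑ i, ‖(τ.comp (g j)) (w i)‖ ^ 2 := by
    intro τ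
    have hB := h (Fin ρ) ι (Matrix.of fun j i => (τ.comp (g j)) (w i))
    have e : (Matrix.of fun j i => (τ.comp (g j)) (w i)) =
        N.map τ * (C.map (Int.castRingHom ℂ))ᵀ := by
      ext j i
      simp [Matrix.mul_apply, hc i, N, C, mul_comm]
    have e' : (C.map (Int.castRingHom ℂ))ᵀᴴ = C.map (Int.castRingHom ℂ) := by
      ext i l
      simp
    have e'' : (C.map (Int.castRingHom ℂ))ᵀ * C.map (Int.castRingHom ℂ) =
        (Cᵀ * C).map (Int.castRingHom ℂ) := by rw [Matrix.map_mul, transpose_map]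
    have hd1 : (N.map τ).det = τ N.det := (τ.map_det N).symm
    have hd2 : ((Cᵀ * C).map (Int.castRingHom ℂ)).det = (((Cᵀ * C).det : ℤ) : ℂ) :=
      ((Int.castRingHom ℂ).map_det _).symm
    refine le_of_eq_of_le ?_ hB
    rw [e, conjTranspose_mul, e', Matrix.mul_assoc, ← Matrix.mul_assoc _ (C.map _), e'', det_mul,
      det_mul, det_conjTranspose, hd1, hd2, norm_mul, norm_mul, norm_star, Complex.norm_intCast,
      ← Int.cast_abs, ← Int.cast_abs, hdet]
    ring
  have hprod : |(((A * Aᵀ).det : ℤ) : ℝ)| ^ finrank ℚ L ≤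
      ∏ j, ∏ τ : L →+* ℂ, ∑ i, ‖(τ.comp (g j)) (w i)‖ ^ 2 := by
    rw [Finset.prod_comm]
    refine le_trans ?_ (Finset.prod_le_prod (fun τ _ => by positivity) fun τ _ => hτ τ)
    rw [Finset.prod_mul_distrib, Finset.prod_const, Finset.card_univ, NumberField.Embeddings.card,
      Finset.prod_pow]
    exact le_mul_of_one_le_right (by positivity) (one_le_pow₀ (dual_norm _ hN0 hNi))
  have hfin := pow_le_pow_left₀ (by positivity) hprod (finrank ℚ K)
  rw [← Finset.prod_pow, Finset.prod_congr rfl fun j _ =>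
    dual_ext (g j) fun σ => ∑ i, ‖σ (w i)‖ ^ 2, Finset.prod_const, Finset.card_univ,
    Fintype.card_fin, ← pow_mul, ← pow_mul, mul_comm (finrank ℚ L), mul_comm (finrank ℚ L),
    pow_mul, pow_mul] at hfin
  have hfin' := (pow_le_pow_iff_left₀ (by positivity) (pow_nonneg hP0 _)
    (finrank_pos (R := ℚ) (M := L)).ne').mp hfin
  exact ((le_abs_self _).trans_eq (abs_pow _ _)).trans hfin'

end Pool.Agent.MP_670f9a_nt.H9
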